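import Pool.Agent.EDG.StmtsC

/-!
# Squad EDG, row LOW (helper6): degree of the resultant with a lower period
-/

set_option autoImplicit false

open Polynomial

namespace Pool.Agent.EDG.H6

open Pool.Agent.EDG.C

/-- Norm of a product over a multiset. -/
theorem norm_prod_le (g : ℂ → ℂ) (B : ℝ) (hB : 0 ≤ B) (m : Multiset ℂ) :
    (∀ x ∈ m, ‖g x‖ ≤ B) → ‖(m.map g).prod‖ ≤ B ^ (Multiset.card m) := by
  induction m using Multiset.induction_on with
  | empty => intro _; simp
  | cons a m ih =>
    intro h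
    rw [Multiset.map_cons, Multiset.prod_cons, Multiset.card_cons, norm_mul, pow_succ, mul_comm]
    have h1 := ih fun x hx => h x (Multiset.mem_cons_of_mem hx)
    have h2 := h a (Multiset.mem_cons_self a m)
    exact mul_le_mul h1 h2 (norm_nonneg _) (pow_nonneg hB _)

/-- The evaluation in two steps. -/
theorem eval_map_eq_ev (c x : ℂ) (P : ℂ[X][X]) :
    (P.map (evalRingHom c)).eval x = ev c x P := by
  have h : (eval₂RingHom (algebraMap ℂ ℂ) c : ℂ[X] →+* ℂ) = evalRingHom c := by
    ext <;> simp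
  unfold ev
  rw [h, coe_eval₂RingHom, eval_map]

/-- The value of `phi n`. -/
theorem ev_phi (hE : EviStmt) (c x : ℂ) (n : ℕ) : ev c x (phi n) = (fc c)^[n] x - x := by
  have h1 : ev c x (X : ℂ[X][X]) = x := by
    unfold ev
    rw [coe_eval₂RingHom, eval₂_X]
  unfold phi
  rw [map_sub, hE.1 ℂ c x n, h1]

theorem low (hE : EviStmt) (hG : GrlStmt) (hP : PrxStmt) : LowStmt := by
  intro n k R hn hk hR hRd hres
  refine (hG (resultant R (phi k)) hres).1 ((3 : ℝ) ^ R.natDegree) R.natDegree ?_
  intro s hs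
  set c : ℂ := -(s : ℂ) ^ 2 with hc
  have hdeg : (R.map (evalRingHom c)).natDegree = R.natDegree := hR.natDegree_map _
  have hmon : (R.map (evalRingHom c)).Monic := hR.map _
  have h1 : (resultant R (phi k)).eval c =
      ((R.map (evalRingHom c)).roots.map ((phi k).map (evalRingHom c)).eval).prod := by
    have h2 := resultant_map_map R (phi k) R.natDegree (phi k).natDegree (evalRingHom c)
    have h3 := resultant_eq_prod_eval (R.map (evalRingHom c)) ((phi k).map (evalRingHom c))
      (phi k).natDegree natDegree_map_le (IsAlgClosed.splits _)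
    rw [hdeg, h2, hmon.leadingCoeff, one_pow, one_mul] at h3
    rw [← coe_evalRingHom]
    exact h3
  rw [h1]
  have hroots : ∀ x ∈ (R.map (evalRingHom c)).roots,
      ‖((phi k).map (evalRingHom c)).eval x‖ ≤ 3 * s := by
    intro x hx
    have hx0 : (R.map (evalRingHom c)).eval x = 0 := (mem_roots'.mp hx).2
    have hx1 : ((phi n).map (evalRingHom c)).eval x = 0 := by
      obtain ⟨Q, hQ⟩ := hRd
      rw [hQ, Polynomial.map_mul, eval_mul, hx0, zero_mul]
    rw [eval_map_eq_ev, ev_phi hE] at hx1
    have hfix : (fc c)^[n] x = x := sub_eq_zero.mp hx1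
    rw [eval_map_eq_ev, ev_phi hE]
    have hk1 := (hP s n x hs hn hfix k).1
    have hk0 := (hP s n x hs hn hfix 0).1
    rw [Function.iterate_zero, id_eq] at hk0
    calc ‖(fc c)^[k] x - x‖ ≤ ‖(fc c)^[k] x‖ + ‖x‖ := norm_sub_le _ _
      _ ≤ (s + 1) + (s + 1) := add_le_add hk1 hk0
      _ ≤ 3 * s := by linarith
  have h3s : (1 : ℝ) ≤ 3 * s := by linarith
  calc ‖((R.map (evalRingHom c)).roots.map ((phi k).map (evalRingHom c)).eval).prod‖
      ≤ (3 * s) ^ Multiset.card (R.map (evalRingHom c)).roots :=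
        norm_prod_le _ _ (by linarith) _ hroots
    _ ≤ (3 * s) ^ R.natDegree := by
        refine pow_le_pow_right₀ h3s ?_
        rw [← hdeg]
        exact card_roots' _
    _ = 3 ^ R.natDegree * s ^ R.natDegree := mul_pow _ _ _

end Pool.Agent.EDG.H6
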